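import Pool.Agent.Lib.MP_4b14b2_mp.NMain
import Pool.Agent.Lib.MP_4b14b2_mp.SubE

/-!
A deformation of the Riemann hierarchy is determined up to Miura equivalence by the series b_k,
k ≥ 2, exactly when one of these series is not zero.
The definitions are in `Pool/Agent/Lib/MP_4b14b2_mp/Defs.lean`.
-/

namespace Pool.Agent.Results.MP_4b14b2_mp.Dichotomy

open Pool.Agent.Lib.MP_4b14b2_mp

theorem result (Q : ℕ → DSeries) (hQ : IsDeformation Q) :
    (∀ Q', IsDeformation Q' → (∀ k, 2 ≤ k → b (Q 1) k = b (Q' 1) k) → MiuraEquivalent Q Q') ↔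
      ∃ k, 2 ≤ k ∧ b (Q 1) k ≠ 0 := by
  refine ⟨fun h => ?_, fun h Q' hQ' hb => Dic.equiv_iff.mpr (Nd.carries hQ hQ' hb h)⟩
  by_contra hc
  push Not at hc
  obtain ⟨Q', h1, h2, h3⟩ := Dic.not_determined hc
  exact h3 (h Q' h1 h2)

end Pool.Agent.Results.MP_4b14b2_mp.Dichotomy
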