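import Pool.Agent.Lib.MP_4b14b2_mp.HMain

/-!
Negative answer to Q1, already among Hamiltonian conservation laws.  The witnesses are the Riemann
hierarchy Q' and a deformation Q with Q_1 = u u_x - 225 ε^18 ∂_x^3 (u_xx^8) + O(ε^36).
The definitions are in `Pool/Agent/Lib/MP_4b14b2_mp/Defs.lean` and `HDefs.lean`.
-/

namespace Pool.Agent.Results.MP_4b14b2_mp.Hamiltonian

open Pool.Agent.Lib.MP_4b14b2_mp

theorem result : ∃ Q Q' : ℕ → DSeries, IsDeformation Q ∧ IsDeformation Q' ∧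
    IsHamiltonian Q ∧ IsHamiltonian Q' ∧
    (∀ k, 2 ≤ k → b (Q 1) k = b (Q' 1) k) ∧ b11 (Q 1) = b11 (Q' 1) ∧
    ¬ MiuraEquivalent Q Q' :=
  ⟨Lau.QQ Lau.PP, Lau.QQ Lau.PR,
    Lau.isDeformation_QQ Lau.good_PP Lau.PP_zero Lau.PP_comm,
    Lau.isDeformation_QQ Lau.good_PR Lau.PR_zero Lau.PR_comm,
    Lau.isHamiltonian_QQ Lau.good_PP, Lau.isHamiltonian_QQ Lau.good_PR,
    fun k hk => by rw [Lau.b_QQ Lau.good_PP k hk, Lau.b_QQ Lau.good_PR k hk],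
    by rw [Lau.b11_QQ, Lau.b11_QQ], Lau.not_equiv⟩

end Pool.Agent.Results.MP_4b14b2_mp.Hamiltonian
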